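import Pool.Agent.Lib.MP_7bd500_al.VFFol
import Pool.Agent.Lib.MP_7bd500_al.VFCore
import Pool.Agent.Lib.MP_7bd500_al.VFLimB
import Pool.Agent.Lib.MP_7bd500_al.VFConv

/-
Very flexible permutation stability of amenable groups, in terms of invariant random subgroups.
-/

set_option autoImplicit false

namespace Pool.Agent.Results.MP_7bd500_al.VeryFlexible

open MeasureTheory

/-- Normalised Hamming distance between two permutations of a finite set. -/
noncomputable def hamming {X : Type} (σ τ : Equiv.Perm X) : ℝ :=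
  (Nat.card {x : X // σ x ≠ τ x} : ℝ) / (Nat.card X : ℝ)

/-- The proportion of the points `x` of `X` with `ι (σ x) ≠ τ (ι x)`. -/
noncomputable def defect {X Y : Type} (ι : X ↪ Y) (σ : Equiv.Perm X) (τ : Equiv.Perm Y) : ℝ :=
  (Nat.card {x : X // ι (σ x) ≠ τ (ι x)} : ℝ) / (Nat.card X : ℝ)

/-- Amenability: there is a left invariant finitely additive probability measure on all subsets. -/
def IsAmenable (G : Type) [Group G] : Prop :=
  ∃ μ : Set G → ℝ, (∀ A, 0 ≤ μ A) ∧ μ Set.univ = 1 ∧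
    (∀ A B : Set G, Disjoint A B → μ (A ∪ B) = μ A + μ B) ∧
    ∀ (g : G) (A : Set G), μ ((fun x => g * x) '' A) = μ A

/-- Very flexible permutation stability of the presentation `G = F_S / ker π`. -/
def IsVeryFlexiblyStable {S G : Type} [Group G] (π : FreeGroup S →* G) : Prop :=
  ∀ (X : ℕ → Type) [∀ n, Finite (X n)] (φ : ∀ n, FreeGroup S →* Equiv.Perm (X n)),
    (∀ w ∈ π.ker, Filter.Tendsto (fun n => hamming (φ n w) 1) Filter.atTop (nhds 0)) →
    ∃ (Y : ℕ → Type) (_ : ∀ n, Finite (Y n)) (ι : ∀ n, X n ↪ Y n)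
      (ψ : ∀ n, FreeGroup S →* Equiv.Perm (Y n)), (∀ n, π.ker ≤ (ψ n).ker) ∧
      ∀ s : S, Filter.Tendsto
        (fun n => defect (ι n) (φ n (FreeGroup.of s)) (ψ n (FreeGroup.of s))) Filter.atTop (nhds 0)

/-- Invariant random subgroups: conjugation invariant probability measures on the subsets of `G`
(product σ-algebra) that are concentrated on subgroups. -/
def IsIRS {G : Type} [Group G] (μ : Measure (Set G)) : Prop :=
  IsProbabilityMeasure μ ∧ (∀ᵐ A ∂μ, ∃ H : Subgroup G, A = (H : Set G)) ∧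
    ∀ a : G, μ.map (fun A : Set G => {g | a * g * a⁻¹ ∈ A}) = μ

/-- `A` lies in the Chabauty closure of the finite index subgroups of `G`. -/
def IsLimitOfFiniteIndex {G : Type} [Group G] (A : Set G) : Prop :=
  ∀ W : Finset G, ∃ L : Subgroup G, L.FiniteIndex ∧ ∀ g ∈ W, (g ∈ L ↔ g ∈ A)

theorem result (S G : Type) [Countable S] [Group G] (π : FreeGroup S →* G)
    (hπ : Function.Surjective π) (hG : IsAmenable G) :
    IsVeryFlexiblyStable π ↔
      ∀ μ : Measure (Set G), IsIRS μ → ∀ᵐ A ∂μ, IsLimitOfFiniteIndex A := by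
  obtain ⟨m, h0, h1, h2, h3⟩ := hG
  have hF := Pool.Agent.Lib.MP_7bd500_al.VF.fol_of_mean m h0 h1 h2 h3
  have : Countable G := hπ.countable
  constructor
  · intro h μ hμ
    exact Pool.Agent.Lib.MP_7bd500_al.VF.lim_of_vfs π hπ hF h μ hμ
  · intro h
    exact Pool.Agent.Lib.MP_7bd500_al.VF.vfs_of_bad_small π hπ hF fun X _ φ hφ W =>
      Pool.Agent.Lib.MP_7bd500_al.VF.bad_small π hπ h X φ hφ W

end Pool.Agent.Results.MP_7bd500_al.VeryFlexible
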